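import Pool.Agent.H32.UA.Fin

/-!
# Relatively prime unitary amicable pairs involve at least `2758` primes

Let `(m, n)` be a relatively prime unitary amicable pair. Then `m n` has at least `2758` distinct prime factors, and
`m n ≥ 10 ^ 10763`.

Proof: `m`, `n` are odd, `m + n` is prime to `m n`, hence no `p ^ a ∥ m n` is `-1` modulo a prime divisor of `m n`, and the
product of the `1 + p ^ (-a)` is larger than `4`. The case distinction is according to the divisibility
of `m n` by `3`, `5` and `7`.
-/

set_option autoImplicit false

namespace Pool.Agent.Results.MP_290fce_nt.ThousandsOfPrimes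

/-- `σ* n`: the product of `1 + p ^ a` over the prime powers `p ^ a` exactly dividing `n`. -/
def sstar (n : ℕ) : ℕ := ∏ p ∈ n.primeFactors, (1 + p ^ (n.factorization p))

/-- **A relatively prime unitary amicable pair `(m, n)` has `ω (m n) ≥ 2758`.** -/
theorem result : ∀ m n : ℕ, 0 < m → 0 < n → m ≠ n → Nat.Coprime m n → sstar m = m + n → sstar n = m + n →
    2758 ≤ (m * n).primeFactors.card ∧ 10 ^ 10763 ≤ m * n := by
  intro m n hm hn hne hc h1 h2
  exact Pool.Agent.H32.UA.main2758 hm hn hne hc h1 h2

end Pool.Agent.Results.MP_290fce_nt.ThousandsOfPrimes
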